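import Mathlib

set_option autoImplicit false

namespace Pool.Agent.Results.MP_3abc29_an.Parabola

open Complex

/-- The symbol, a rational function with its only finite pole at 0. -/
noncomputable def F (z : ℂ) : ℂ := (z + z⁻¹) + I / 2 * (z + z⁻¹) ^ 2

/-- The Fourier coefficients of F on the unit circle. -/
noncomputable def coef (n : ℤ) : ℂ :=
  fourierCoeff (fun t : AddCircle (1 : ℝ) => F (AddCircle.toCircle t)) n

/-- Von Neumann's inequality fails on the spectrum for some r(z) = 1/(w - z). -/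
def NotSpectral {A : Type} [NormedRing A] [NormedAlgebra ℂ A] (T : A) : Prop :=
  ∃ w ∉ spectrum ℂ T, ∃ C : ℝ, (∀ z ∈ spectrum ℂ T, ‖(w - z)⁻¹‖ ≤ C) ∧ C < ‖resolvent T w‖

noncomputable abbrev H := lp (fun _ : ℕ => ℂ) 2

lemma h2 : 0 < (2 : ENNReal).toReal := by norm_num

noncomputable def up (f : ℕ → ℂ) : ℕ → ℂ
  | 0 => 0
  | n + 1 => f n

noncomputable def A : H →L[ℂ] H :=
  LinearMap.mkContinuous
    { toFun := fun f => ⟨up f, memℓp_gen ((summable_nat_add_iff 1).1 ((lp.memℓp f).summable h2))⟩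
      map_add' := fun f g => by ext n; cases n <;> simp [up]
      map_smul' := fun c f => by ext n; cases n <;> simp [up] } 1 fun f => by
    rw [one_mul]
    refine lp.norm_le_of_tsum_le h2 (norm_nonneg _) ?_
    rw [(((lp.memℓp _).summable h2)).tsum_eq_zero_add, lp.norm_rpow_eq_tsum h2]
    simp [up]

noncomputable def B : H →L[ℂ] H :=
  LinearMap.mkContinuous
    { toFun := fun f => ⟨fun n => f (n + 1),
        memℓp_gen ((summable_nat_add_iff 1).2 ((lp.memℓp f).summable h2))⟩
      map_add' := fun f g => rfl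
      map_smul' := fun c f => rfl } 1 fun f => by
    rw [one_mul]
    refine lp.norm_le_of_tsum_le h2 (norm_nonneg _) ?_
    rw [lp.norm_rpow_eq_tsum h2 f, (((lp.memℓp f).summable h2)).tsum_eq_zero_add]
    exact le_add_of_nonneg_left (by positivity)

lemma A_apply (f : H) (n : ℕ) : A f n = up f n := rfl
lemma B_apply (f : H) (n : ℕ) : B f n = f (n + 1) := rfl
lemma BA : B * A = 1 := by ext f n; rfl

lemma unit_of (X : H →L[ℂ] H) (hX : ‖X‖ ≤ 1) (a : ℂ) (ha : ‖a‖ < 1) : IsUnit (1 - a • X) :=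
  (Units.oneSub (a • X) (by
    rw [norm_smul]; nlinarith [norm_nonneg a, norm_nonneg X])).isUnit

noncomputable def T : H →L[ℂ] H := A + B + (I / 2) • (A * A + B * B) + I • 1

lemma root (m : ℂ) (hm : m.im ≠ 0) : ∃ a : ℂ, ‖a‖ < 1 ∧ a ≠ 0 ∧ a * a + 1 = m * a := by
  obtain ⟨s, hs⟩ := IsAlgClosed.exists_eq_mul_self (m * m - 4)
  have e : (m + s) / 2 * ((m - s) / 2) = 1 := by linear_combination hs / 4
  have key : ∀ a b : ℂ, a * b = 1 → a + b = m → ‖a‖ ≤ 1 →
      ∃ a : ℂ, ‖a‖ < 1 ∧ a ≠ 0 ∧ a * a + 1 = m * a := by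
    intro a b h1 h2 h3
    refine ⟨a, lt_of_le_of_ne h3 fun h => hm ?_, left_ne_zero_of_mul_eq_one h1, by
      rw [← h2, ← h1]; ring⟩
    have : b = (starRingEnd ℂ) a := by rw [← inv_eq_conj h]; exact eq_inv_of_mul_eq_one_right h1
    rw [← h2, this]; simp
  rcases le_total ‖(m + s) / 2‖ 1 with h | h
  · exact key _ _ e (by ring) h
  · refine key ((m - s) / 2) ((m + s) / 2) ((mul_comm _ _).trans e) (by ring) ?_
    have := congrArg norm e
    rw [norm_mul, norm_one] at this
    nlinarith [norm_nonneg ((m - s) / 2)]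

lemma spec (z : ℂ) (hz : z ∈ spectrum ℂ T) : ∃ t : ℝ, z = t + I / 2 * t ^ 2 := by
  by_contra hc
  push Not at hc
  obtain ⟨s, hs⟩ := IsAlgClosed.exists_eq_mul_self (-1 - 2 * I * z)
  have im : ∀ m : ℂ, m * m - 2 * I * m + 2 * I * z = 0 → m.im ≠ 0 := by
    intro m h hm
    refine hc m.re ?_
    have : (m.re : ℂ) = m := by apply Complex.ext <;> simp [hm]
    rw [this]
    linear_combination (-I / 2) * h + (z - m) * I_mul_I
  obtain ⟨a, a1, a0, a2⟩ := root (I + s) (im _ (by linear_combination -hs - I_mul_I))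
  obtain ⟨b, b1, b0, b2⟩ := root (I - s) (im _ (by linear_combination -hs - I_mul_I))
  have nA : ‖A‖ ≤ 1 := LinearMap.mkContinuous_norm_le _ zero_le_one _
  have nB : ‖B‖ ≤ 1 := LinearMap.mkContinuous_norm_le _ zero_le_one _
  have hu := ((unit_of B nB a a1).mul (unit_of B nB b b1)).mul
    ((unit_of A nA a a1).mul (unit_of A nA b b1))
  have e1 : B * (B * A) = B := by rw [BA, mul_one]
  have e2 : B * (A * A) = A := by rw [← mul_assoc, BA, one_mul]
  have e3 : B * (B * (A * A)) = 1 := by rw [e2, BA]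
  have key : (1 - a • B) * (1 - b • B) * ((1 - a • A) * (1 - b • A)) =
      (2 * I * (a * b)) • (algebraMap ℂ (H →L[ℂ] H) z - T) := by
    simp only [T, Algebra.algebraMap_eq_smul_one, mul_sub, sub_mul, mul_one, one_mul, mul_assoc,
      smul_mul_assoc, mul_smul_comm, BA, e2]
    match_scalars
    · linear_combination (b * b + 1) * a2 + (I + s) * a * b2 + (a * b) * hs + (3 * a * b) * I_mul_I
    · linear_combination -b * a2 - a * b2
    · linear_combination (a * b) * I_mul_I
    · linear_combination -b * a2 - a * b2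
    · linear_combination (a * b) * I_mul_I
  rw [key] at hu
  exact hz ((isUnit_smul_iff (Units.mk0 (2 * I * (a * b)) (by simp [a0, b0])) _).1 hu)

lemma coeff (n : ℤ) : fourierCoeff (fun t : AddCircle (1 : ℝ) => F (AddCircle.toCircle t)) n =
    (Pi.single 1 1 : ℤ → ℂ) n + (Pi.single (-1) 1 : ℤ → ℂ) n +
      I / 2 * ((Pi.single 2 1 : ℤ → ℂ) n + (Pi.single (-2) 1 : ℤ → ℂ) n) +
      I * (Pi.single 0 1 : ℤ → ℂ) n := by
  have e : (fun t : AddCircle (1 : ℝ) => F (AddCircle.toCircle t)) =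
      ⇑(fourier 1) + ⇑(fourier (-1)) + (I / 2) • (⇑(fourier 2) + ⇑(fourier (-2))) +
        I • ⇑(fourier 0) := by
    funext t
    have a : fourier 1 t * fourier (-1) t = 1 := by rw [← fourier_add]; simp
    have b : fourier 2 t = fourier 1 t * fourier 1 t := by rw [← fourier_add]; rfl
    have c : fourier (-2) t = fourier (-1) t * fourier (-1) t := by rw [← fourier_add]; rfl
    simp only [Pi.add_apply, Pi.smul_apply, smul_eq_mul, b, c, fourier_zero, F, ← fourier_one,
      ← eq_inv_of_mul_eq_one_right a]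
    linear_combination I * a
  have i : ∀ k : ℤ, MeasureTheory.Integrable (fourier k : AddCircle (1 : ℝ) → ℂ)
      AddCircle.haarAddCircle := fun k =>
    (fourier k).continuous.integrable_of_hasCompactSupport (HasCompactSupport.of_compactSpace _)
  rw [e, fourierCoeff.add (((i _).add (i _)).add (((i _).add (i _)).smul _)) ((i _).smul _),
    fourierCoeff.add ((i _).add (i _)) (((i _).add (i _)).smul _), fourierCoeff.add (i _) (i _)]
  simp only [Pi.add_apply, fourierCoeff.const_smul, fourierCoeff.add (i _) (i _),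
    fourierCoeff_fourier, smul_eq_mul]

lemma T_apply (f : H) (n : ℕ) :
    T f n = up f n + f (n + 1) + I / 2 * (up (up f) n + f (n + 2)) + I * f n := rfl

theorem main :
    (∃ g : Circle → ℂ, Continuous g ∧ Function.Injective g ∧ ∀ z : Circle, F z ∈ Set.range g) ∧
    ∃ T : lp (fun _ : ℕ => ℂ) 2 →L[ℂ] lp (fun _ : ℕ => ℂ) 2,
      (∀ i j : ℕ, T (lp.single 2 j 1) i =
        fourierCoeff (fun t : AddCircle (1 : ℝ) => F (AddCircle.toCircle t)) ((i : ℤ) - j)) ∧
      ∃ w ∉ spectrum ℂ T, ∃ C : ℝ, (∀ z ∈ spectrum ℂ T, ‖(w - z)⁻¹‖ ≤ C) ∧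
        C < ‖resolvent T w‖ := by
  have far : ∀ z ∈ spectrum ℂ T, 5 / 3 ≤ ‖2 * I - z‖ := by
    intro z hz
    obtain ⟨t, rfl⟩ := spec z hz
    refine (pow_le_pow_iff_left₀ (by norm_num) (norm_nonneg _) two_ne_zero).1 ?_
    rw [Complex.sq_norm, normSq_apply]
    simp [pow_two]
    nlinarith [sq_nonneg (t * t / 2 - 1)]
  have hw : 2 * I ∉ spectrum ℂ T := fun h => by have := far _ h; norm_num at this
  refine ⟨⟨fun z => ⟨2 * (z : ℂ).re, 2 * (z : ℂ).re ^ 2 + max 0 (z : ℂ).im⟩, ?_, ?_, ?_⟩,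
    T, fun i j => ?_, 2 * I, hw, 3 / 5, fun z hz => ?_, ?_⟩
  · simp only [mk_eq_add_mul_I]; fun_prop
  · intro x y h
    have h1 : (x : ℂ).re = (y : ℂ).re := by have := congrArg re h; simp only at this; linarith
    have h2 := congrArg im h
    simp only [h1, add_right_inj] at h2
    have a := x.normSq_coe
    have b := y.normSq_coe
    rw [normSq_apply] at a b
    refine Circle.ext (Complex.ext h1 ?_)
    rw [h1] at a
    rcases le_total 0 (x : ℂ).im with c | c <;> rcases le_total 0 (y : ℂ).im with d | d <;>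
      simp only [max_eq_left, max_eq_right, c, d] at h2 <;> nlinarith
  · intro z
    have e : F z = ⟨2 * (z : ℂ).re, 2 * (z : ℂ).re ^ 2⟩ := by
      rw [F, inv_eq_conj z.norm_coe, add_conj]
      apply Complex.ext <;> simp [pow_two]
      ring
    rcases le_total 0 (z : ℂ).im with c | c
    · exact ⟨z⁻¹, by rw [e]; simp only [Circle.coe_inv_eq_conj]; simp [c]⟩
    · exact ⟨z, by rw [e]; simp [c]⟩
  · rw [coeff, T_apply]
    rcases i with _ | _ | i <;> simp only [up, lp.single_apply, Pi.single_apply] <;>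
      split_ifs <;> first | omega | simp
  · rw [norm_inv]
    exact (inv_anti₀ (by norm_num) (far z hz)).trans (by norm_num)
  · obtain ⟨u, hu⟩ := spectrum.notMem_iff.1 hw
    set e : H := lp.single 2 0 1
    have h1 : resolvent T (2 * I) ((algebraMap ℂ (H →L[ℂ] H) (2 * I) - T) e) = e := by
      rw [resolvent, ← hu, Ring.inverse_unit, ← ContinuousLinearMap.mul_apply, u.inv_mul]; rfl
    have h3 : ‖(algebraMap ℂ (H →L[ℂ] H) (2 * I) - T) e‖ ≤ 3 / 2 := by
      refine lp.norm_le_of_tsum_le h2 (by norm_num) ?_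
      have hv : ∀ n, (algebraMap ℂ (H →L[ℂ] H) (2 * I) - T) e n = 2 * I * e n - T e n :=
        fun n => rfl
      rw [tsum_eq_sum (s := Finset.range 3) fun n hn => by
        obtain ⟨n, rfl⟩ : ∃ m, n = m + 3 := ⟨n - 3, by simp at hn; omega⟩
        simp [hv, T_apply, up, e, lp.single_apply]]
      simp [Finset.sum_range_succ, T_apply, up, e, lp.single_apply]
      rw [show I * 2 - I = I by ring]
      norm_num
    have h4 := (resolvent T (2 * I)).le_of_opNorm_le_of_le le_rfl h3
    rw [h1, lp.norm_single (by norm_num), norm_one] at h4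
    linarith

/-- F maps the circle into a simple closed curve, but the spectrum of the Toeplitz operator with
symbol F is not a spectral set for it. -/
theorem result :
    (∃ g : Circle → ℂ, Continuous g ∧ Function.Injective g ∧ ∀ z : Circle, F z ∈ Set.range g) ∧
    ∃ (E : Type) (_ : NormedAddCommGroup E) (_ : InnerProductSpace ℂ E) (_ : CompleteSpace E)
      (b : HilbertBasis ℕ ℂ E) (T : E →L[ℂ] E),
      (∀ i j : ℕ, inner ℂ (b i) (T (b j)) = coef ((i : ℤ) - j)) ∧ NotSpectral T := by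
  obtain ⟨h1, T, h2, h3⟩ := main
  refine ⟨h1, H, inferInstance, inferInstance, inferInstance,
    HilbertBasis.ofRepr (LinearIsometryEquiv.refl _ _), T, fun i j => ?_, h3⟩
  rw [← HilbertBasis.repr_apply_apply, ← HilbertBasis.repr_symm_single]
  exact h2 i j

end Pool.Agent.Results.MP_3abc29_an.Parabola
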